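import Pool.Agent.helper62.LL.SpecE

/-!
# Row `ll:BTS` (MP_07c750): the two sided Birkhoff theorem for an invertible system
-/

set_option autoImplicit false

open scoped Topology
open MeasureTheory Filter Set

namespace Pool.Agent.LL

lemma BTS_cancel {X : Type} [MeasurableSpace X] {μ : Measure X} {T S : X → X} (h : Sys μ T S) (i : ℕ) :
    ∀ x, T^[i] (S^[i] x) = x := by
  induction i with
  | zero => intro x; rfl
  | succ i ih =>
    intro x
    rw [Function.iterate_succ_apply', Function.iterate_succ_apply (f := S), ih, h.ts]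

lemma BTS_le {X : Type} [MeasurableSpace X] {μ : Measure X} {T S : X → X} (h : Sys μ T S) {i n : ℕ} (hi : i ≤ n) (x : X) :
    T^[i] (S^[n] x) = S^[n - i] x := by
  obtain ⟨k, rfl⟩ := Nat.exists_eq_add_of_le hi
  rw [Function.iterate_add_apply, BTS_cancel h, Nat.add_sub_cancel_left]

lemma BTS_ge {X : Type} [MeasurableSpace X] {μ : Measure X} {T S : X → X} (h : Sys μ T S) (n k : ℕ) (x : X) :
    T^[n + k] (S^[n] x) = T^[k] x := by
  rw [Nat.add_comm n k, Function.iterate_add_apply, BTS_cancel h]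

lemma BTS_sum {X : Type} [MeasurableSpace X] {μ : Measure X} {T S : X → X} (h : Sys μ T S) (g : X → ℝ) (n : ℕ) (x : X) :
    ∑ i ∈ Finset.range (2 * n + 1), g (T^[i] (S^[n] x)) =
      ∑ j ∈ Finset.range (n + 1), g (S^[j] x) + ∑ j ∈ Finset.range (n + 1), g (T^[j] x) - g x := by
  have e : 2 * n + 1 = n + (n + 1) := by ring
  rw [e, Finset.sum_range_add]
  have h1 : ∑ i ∈ Finset.range n, g (T^[i] (S^[n] x)) = ∑ j ∈ Finset.range n, g (S^[j + 1] x) := by
    rw [← Finset.sum_range_reflect]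
    refine Finset.sum_congr rfl fun j hj => ?_
    have hj' := Finset.mem_range.1 hj
    rw [BTS_le h (by omega)]
    congr 2
    omega
  have h2 : ∑ k ∈ Finset.range (n + 1), g (T^[n + k] (S^[n] x)) = ∑ j ∈ Finset.range (n + 1), g (T^[j] x) :=
    Finset.sum_congr rfl fun k _ => by rw [BTS_ge h]
  rw [h1, h2, Finset.sum_range_succ' (fun j => g (S^[j] x)) n]
  simp only [Function.iterate_zero, id_eq]
  ring

theorem BTS_proof (h1 : BIR_stmt) : BTS_stmt := by
  intro X _ μ T S g L hμ h hg hb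
  obtain ⟨J₁, m1, i1, b1, e1, l1⟩ := h1 X μ T g L hμ h.mp hg hb
  obtain ⟨J₂, m2, i2, b2, e2, l2⟩ := h1 X μ S g L hμ h.ms hg hb
  have hint : ∀ J : X → ℝ, Measurable J → (∀ x, 0 ≤ J x ∧ J x ≤ L) → Integrable J μ := fun J hm hb =>
    Integrable.of_bound hm.aestronglyMeasurable L (Filter.Eventually.of_forall fun x => by
      rw [Real.norm_eq_abs, abs_of_nonneg (hb x).1]; exact (hb x).2)
  refine ⟨fun x => (J₁ x + J₂ x) / 2, (m1.add m2).div_const 2, fun x => ?_, fun x => ?_, ?_, ?_⟩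
  · have : J₂ (T x) = J₂ x := by rw [← i2 (T x), h.st]
    show (J₁ (T x) + J₂ (T x)) / 2 = (J₁ x + J₂ x) / 2
    rw [i1, this]
  · have := b1 x
    have := b2 x
    constructor
    · show 0 ≤ (J₁ x + J₂ x) / 2
      linarith
    · show (J₁ x + J₂ x) / 2 ≤ L
      linarith
  · rw [integral_div, integral_add (hint J₁ m1 b1) (hint J₂ m2 b2), e1, e2]
    ring
  · filter_upwards [l1, l2] with x t1 t2
    have s1 := t1.comp (tendsto_add_atTop_nat 1)
    have s2 := t2.comp (tendsto_add_atTop_nat 1)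
    have hq : Tendsto (fun n : ℕ => ((n + 1 : ℕ) : ℝ) / ((2 * n + 1 : ℕ) : ℝ)) atTop (𝓝 (1 / 2)) := by
      have e : (fun n : ℕ => ((n + 1 : ℕ) : ℝ) / ((2 * n + 1 : ℕ) : ℝ)) = fun n : ℕ => 1 / 2 + (1 / 2) * (1 / ((2 * n + 1 : ℕ) : ℝ)) := by
        funext n
        have : ((2 * n + 1 : ℕ) : ℝ) ≠ 0 := by positivity
        field_simp
        push_cast
        ring
      rw [e]
      have hz : Tendsto (fun n : ℕ => 1 / ((2 * n + 1 : ℕ) : ℝ)) atTop (𝓝 0) := by
        have := (tendsto_inv_atTop_zero (𝕜 := ℝ)).comp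
          (tendsto_natCast_atTop_atTop.comp (tendsto_atTop_mono (fun n : ℕ => (by omega : n ≤ 2 * n + 1)) tendsto_id))
        refine this.congr fun n => ?_
        simp [Function.comp]
      have := (hz.const_mul (1 / 2 : ℝ)).const_add (1 / 2 : ℝ)
      simpa using this
    have hg0 : Tendsto (fun n : ℕ => g x / ((2 * n + 1 : ℕ) : ℝ)) atTop (𝓝 0) := by
      have hz : Tendsto (fun n : ℕ => 1 / ((2 * n + 1 : ℕ) : ℝ)) atTop (𝓝 0) := by
        have := (tendsto_inv_atTop_zero (𝕜 := ℝ)).comp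
          (tendsto_natCast_atTop_atTop.comp (tendsto_atTop_mono (fun n : ℕ => (by omega : n ≤ 2 * n + 1)) tendsto_id))
        refine this.congr fun n => ?_
        simp [Function.comp]
      have := hz.const_mul (g x)
      rw [mul_zero] at this
      refine this.congr fun n => ?_
      ring
    have key := ((s2.add s1).mul hq).sub hg0
    have e : (J₂ x + J₁ x) * (1 / 2) - 0 = (J₁ x + J₂ x) / 2 := by ring
    rw [e] at key
    refine key.congr fun n => ?_
    show ((∑ i ∈ Finset.range (n + 1), g (S^[i] x)) / ((n + 1 : ℕ) : ℝ) + (∑ i ∈ Finset.range (n + 1), g (T^[i] x)) / ((n + 1 : ℕ) : ℝ)) *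
      (((n + 1 : ℕ) : ℝ) / ((2 * n + 1 : ℕ) : ℝ)) - g x / ((2 * n + 1 : ℕ) : ℝ) = _
    rw [BTS_sum h g n x]
    have h1' : ((n + 1 : ℕ) : ℝ) ≠ 0 := by positivity
    have h2' : ((2 * n + 1 : ℕ) : ℝ) ≠ 0 := by positivity
    field_simp

end Pool.Agent.LL
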