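import Pool.Agent.helper62.LL.SpecG
import Pool.Agent.helper62.EN.All

/-!
# Row `ll:MDP` (MP_07c750): mass distribution
-/

set_option autoImplicit false

open scoped MatrixGroups ContDiff Topology UpperHalfPlane
open UpperHalfPlane MeasureTheory Filter Set

namespace Pool.Agent.LL

open Pool.Agent.EN (XG MG mkX mkM fl pr)

/-- the abstract form -/
lemma MDP_abs {X Y : Type} [MetricSpace X] [MeasurableSpace X] [BorelSpace X] [MeasurableSpace Y] (π : X → Y) (hπ : Function.Surjective π)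
    (σ : Measure Y) [IsFiniteMeasure σ] (D : ℝ → Set (Y × Y)) (hD : ∀ ρ, MeasurableSet (D ρ))
    (hd : ∀ ρ z z', dist z z' < ρ → (π z, π z') ∈ D ρ) (C u α : ℝ) (hα : 0 < α) (hu : α < u)
    (hE : ∀ ρ : ℝ, 0 < ρ → ρ ≤ 1 → (σ.prod σ) (D ρ) ≤ ENNReal.ofReal (C * ρ ^ (1 + u)))
    (E : Set Y) (h0 : Measure.hausdorffMeasure (1 + α) (π ⁻¹' E) = 0) : σ E = 0 := by
  classical
  set q : ℕ → ℝ := fun k => (1 / 2 : ℝ) ^ k with hq
  have qpos : ∀ k, 0 < q k := fun k => by positivity
  have qle : ∀ k, q k ≤ 1 := fun k => pow_le_one₀ (by norm_num) (by norm_num)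
  set β : ℕ → Y → ENNReal := fun k a => σ (Prod.mk a ⁻¹' D (q k)) with hβ
  have βm : ∀ k, Measurable (β k) := fun k => measurable_measure_prodMk_left (hD (q k))
  have βi : ∀ k, ∫⁻ a, β k a ∂σ ≤ ENNReal.ofReal (C * q k ^ (1 + u)) := fun k => by
    have := hE (q k) (qpos k) (qle k)
    rwa [Measure.prod_apply (hD (q k))] at this
  set B : ℕ → Set Y := fun k => {a | ENNReal.ofReal (q k ^ (1 + α)) ≤ β k a} with hB
  have Bm : ∀ k, σ (B k) ≤ ENNReal.ofReal (C * q k ^ (u - α)) := fun k => by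
    have h1 := mul_meas_ge_le_lintegral (μ := σ) (βm k) (ENNReal.ofReal (q k ^ (1 + α)))
    have h2 := h1.trans (βi k)
    have hp : 0 < q k ^ (1 + α) := Real.rpow_pos_of_pos (qpos k) _
    have h3 : ENNReal.ofReal (C * q k ^ (1 + u)) = ENNReal.ofReal (q k ^ (1 + α)) * ENNReal.ofReal (C * q k ^ (u - α)) := by
      rw [← ENNReal.ofReal_mul hp.le]
      congr 1
      have : q k ^ (1 + u) = q k ^ (1 + α) * q k ^ (u - α) := by
        rw [← Real.rpow_add (qpos k)]
        congr 1
        ring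
      rw [this]
      ring
    rw [h3] at h2
    exact (ENNReal.mul_le_mul_iff_right (ENNReal.ofReal_pos.2 hp).ne' ENNReal.ofReal_ne_top).1 h2
  have hr : (1 / 2 : ℝ) ^ (u - α) < 1 := Real.rpow_lt_one (by norm_num) (by norm_num) (by linarith)
  have hsum : ∑' k, σ (B k) ≠ ⊤ := by
    have hC : ∀ k, σ (B k) ≤ ENNReal.ofReal (|C| * ((1 / 2 : ℝ) ^ (u - α)) ^ k) := fun k => by
      refine (Bm k).trans (ENNReal.ofReal_le_ofReal ?_)
      have : q k ^ (u - α) = ((1 / 2 : ℝ) ^ (u - α)) ^ k := by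
        rw [hq]
        show ((1 / 2 : ℝ) ^ k) ^ (u - α) = _
        rw [← Real.rpow_natCast, ← Real.rpow_mul (by norm_num), ← Real.rpow_natCast, ← Real.rpow_mul (by norm_num)]
        congr 1
        ring
      rw [this]
      exact mul_le_mul_of_nonneg_right (le_abs_self C) (by positivity)
    have hs : Summable fun k : ℕ => |C| * ((1 / 2 : ℝ) ^ (u - α)) ^ k :=
      (summable_geometric_of_lt_one (by positivity) hr).mul_left _
    have := (ENNReal.ofReal_tsum_of_nonneg (fun k => by positivity) hs).symm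
    refine ne_top_of_le_ne_top (b := ∑' k, ENNReal.ofReal (|C| * ((1 / 2 : ℝ) ^ (u - α)) ^ k)) ?_ (ENNReal.tsum_le_tsum hC)
    rw [this]
    exact ENNReal.ofReal_ne_top
  have hlim := measure_limsup_atTop_eq_zero hsum
  -- the sets `M_m`
  have key : ∀ m : ℕ, σ (E ∩ {a | ∀ k, m ≤ k → β k a ≤ ENNReal.ofReal (q k ^ (1 + α))}) = 0 := by
    intro m
    set A : Set X := π ⁻¹' (E ∩ {a | ∀ k, m ≤ k → β k a ≤ ENNReal.ofReal (q k ^ (1 + α))}) with hA
    have hA0 : Measure.hausdorffMeasure (1 + α) A = 0 :=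
      measure_mono_null (preimage_mono inter_subset_left) h0
    -- small sets have small measure
    have small : ∀ (s : Set X) (z : X), z ∈ s → z ∈ A → Metric.ediam s ≤ ENNReal.ofReal (q (m + 1)) →
        σ (π '' s) ≤ ENNReal.ofReal (4 ^ (1 + α)) * Metric.ediam s ^ (1 + α) := by
      intro s z hz hzA hs
      have hfin : Metric.ediam s ≠ ⊤ := ne_top_of_le_ne_top ENNReal.ofReal_ne_top hs
      have hsub : ∀ k, (Metric.ediam s).toReal < q k → m ≤ k → σ (π '' s) ≤ ENNReal.ofReal (q k ^ (1 + α)) := by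
        intro k hk hmk
        refine (measure_mono ?_).trans (hzA.2 k hmk)
        rintro _ ⟨z', hz', rfl⟩
        refine hd _ _ _ (lt_of_le_of_lt ?_ hk)
        rw [dist_edist]
        exact ENNReal.toReal_mono hfin (Metric.edist_le_ediam_of_mem hz hz')
      rcases eq_or_lt_of_le (zero_le : (0 : ENNReal) ≤ Metric.ediam s) with h | h
      · -- one point
        have h0' : σ (π '' s) ≤ 0 := by
          have ht : Tendsto (fun k : ℕ => ENNReal.ofReal (q k ^ (1 + α))) atTop (𝓝 0) := by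
            have h1 : Tendsto q atTop (𝓝 0) := tendsto_pow_atTop_nhds_zero_of_lt_one (by norm_num) (by norm_num)
            have h2 : Tendsto (fun k : ℕ => q k ^ (1 + α)) atTop (𝓝 0) := by
              have := h1.rpow_const (p := 1 + α) (Or.inr (by linarith))
              rwa [Real.zero_rpow (by linarith)] at this
            have := ENNReal.tendsto_ofReal h2
            rwa [ENNReal.ofReal_zero] at this
          refine ge_of_tendsto ht ?_
          filter_upwards [eventually_ge_atTop m] with k hk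
          refine hsub k ?_ hk
          rw [← h, ENNReal.toReal_zero]
          exact qpos k
        exact h0'.trans zero_le
      · set d := (Metric.ediam s).toReal with hdd
        have hd0 : 0 < d := ENNReal.toReal_pos h.ne' hfin
        have hd1 : d ≤ q (m + 1) := by
          have := ENNReal.toReal_mono ENNReal.ofReal_ne_top hs
          rwa [ENNReal.toReal_ofReal (qpos _).le] at this
        obtain ⟨j, hj1, hj2⟩ := exists_nat_pow_near_of_lt_one hd0 (hd1.trans (qle _)) (by norm_num : (0 : ℝ) < 1 / 2) (by norm_num)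
        have hjm : m + 1 ≤ j := by
          by_contra hlt
          push Not at hlt
          have : q (m + 1) ≤ (1 / 2 : ℝ) ^ (j + 1) :=
            pow_le_pow_of_le_one (by norm_num) (by norm_num) (by omega)
          linarith
        obtain ⟨k, rfl⟩ : ∃ k, j = k + 1 := ⟨j - 1, by omega⟩
        have hk1 : d < q k := by
          have : (1 / 2 : ℝ) ^ (k + 1) = q k / 2 := by rw [pow_succ]; ring
          rw [this] at hj2
          have := qpos k
          linarith
        have hk2 : q k ≤ 4 * d := by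
          have : (1 / 2 : ℝ) ^ (k + 1 + 1) = q k / 4 := by rw [pow_succ, pow_succ]; ring
          rw [this] at hj1
          linarith
        refine (hsub k hk1 (by omega)).trans ?_
        have h4 : Metric.ediam s = ENNReal.ofReal d := (ENNReal.ofReal_toReal hfin).symm
        rw [h4, ENNReal.ofReal_rpow_of_pos hd0, ← ENNReal.ofReal_mul (by positivity), ← Real.mul_rpow (by norm_num) hd0.le]
        exact ENNReal.ofReal_le_ofReal (Real.rpow_le_rpow (qpos k).le hk2 (by linarith))
    rw [Measure.hausdorffMeasure_apply] at hA0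
    have h1 := (le_iSup₂ (f := fun (r : ENNReal) (_ : 0 < r) =>
      ⨅ (t : ℕ → Set X) (_ : A ⊆ ⋃ n, t n) (_ : ∀ n, Metric.ediam (t n) ≤ r),
        ∑' n, ⨆ _ : (t n).Nonempty, Metric.ediam (t n) ^ (1 + α)) (ENNReal.ofReal (q (m + 1))) (ENNReal.ofReal_pos.2 (qpos _))).trans hA0.le
    refine le_antisymm (ENNReal.le_of_forall_pos_le_add fun ε hε _ => ?_) zero_le
    rw [zero_add]
    set c4 : ENNReal := ENNReal.ofReal (4 ^ (1 + α)) with hc4
    have hc4p : c4 ≠ 0 := (ENNReal.ofReal_pos.2 (by positivity)).ne'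
    have hη : (⨅ (t : ℕ → Set X) (_ : A ⊆ ⋃ n, t n) (_ : ∀ n, Metric.ediam (t n) ≤ ENNReal.ofReal (q (m + 1))),
        ∑' n, ⨆ _ : (t n).Nonempty, Metric.ediam (t n) ^ (1 + α)) < (ε : ENNReal) / c4 := by
      refine lt_of_le_of_lt h1 ?_
      exact ENNReal.div_pos (by exact_mod_cast hε.ne') ENNReal.ofReal_ne_top
    simp only [iInf_lt_iff] at hη
    obtain ⟨t, ht1, ht2, ht3⟩ := hη
    have hcov : (E ∩ {a | ∀ k, m ≤ k → β k a ≤ ENNReal.ofReal (q k ^ (1 + α))}) ⊆
        ⋃ n, (if (t n ∩ A).Nonempty then π '' t n else ∅) := by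
      intro b hb
      obtain ⟨z, rfl⟩ := hπ b
      have hz : z ∈ A := hb
      obtain ⟨n, hn⟩ := mem_iUnion.1 (ht1 hz)
      refine mem_iUnion.2 ⟨n, ?_⟩
      rw [if_pos ⟨z, hn, hz⟩]
      exact ⟨z, hn, rfl⟩
    refine (measure_mono hcov).trans ((measure_iUnion_le _).trans ?_)
    have hle : ∀ n, σ (if (t n ∩ A).Nonempty then π '' t n else ∅) ≤ c4 * ⨆ _ : (t n).Nonempty, Metric.ediam (t n) ^ (1 + α) := by
      intro n
      split_ifs with hn
      · obtain ⟨z, hz1, hz2⟩ := hn
        have hne : (t n).Nonempty := ⟨z, hz1⟩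
        rw [iSup_pos hne]
        exact small (t n) z hz1 hz2 (ht2 n)
      · rw [measure_empty]; exact zero_le
    refine (ENNReal.tsum_le_tsum hle).trans ?_
    rw [ENNReal.tsum_mul_left]
    calc c4 * _ ≤ c4 * (ε / c4) := by gcongr
      _ = ε := ENNReal.mul_div_cancel hc4p ENNReal.ofReal_ne_top
  have hsub : E ⊆ (⋃ m : ℕ, E ∩ {a | ∀ k, m ≤ k → β k a ≤ ENNReal.ofReal (q k ^ (1 + α))}) ∪ limsup B atTop := by
    intro a ha
    by_cases hl : a ∈ limsup B atTop
    · exact Or.inr hl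
    · left
      rw [mem_limsup_iff_frequently_mem] at hl
      rw [not_frequently] at hl
      obtain ⟨m, hm⟩ := eventually_atTop.1 hl
      refine mem_iUnion.2 ⟨m, ha, fun k hk => ?_⟩
      have := hm k hk
      simp only [hB, mem_ofPred_eq, not_le] at this
      exact this.le
  refine measure_mono_null hsub (measure_union_null (measure_iUnion_null key) hlim)

theorem MDP_proof : MDP_stmt := by
  intro Γ σ C u α E hΓ hσ hα hu hE hEm h0
  obtain ⟨hfl, hpr, hcX, hoX, hsX, hcM, hoM, hsM, -⟩ := Pool.Agent.EN.A_XFL Γ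
  obtain ⟨i1, i2, i3⟩ := Pool.Agent.EN.A_XTM Γ hΓ
  have hopen : ∀ ρ : ℝ, IsOpen (DM Γ ρ) := by
    intro ρ
    have h1 : IsOpen {w : ℍ × ℍ | dist w.1 w.2 < ρ} := isOpen_lt (continuous_fst.dist continuous_snd) continuous_const
    have h2 := (hoM.prodMap hoM) _ h1
    have h3 : DM Γ ρ = Prod.map (mkM Γ) (mkM Γ) '' {w : ℍ × ℍ | dist w.1 w.2 < ρ} := by
      ext ⟨a, b⟩
      constructor
      · rintro ⟨z, z', h1, h2, h3⟩
        exact ⟨(z, z'), h3, Prod.ext h1.symm h2.symm⟩
      · rintro ⟨⟨z, z'⟩, h3, h4⟩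
        exact ⟨z, z', (congrArg Prod.fst h4).symm, (congrArg Prod.snd h4).symm, h3⟩
    rw [h3]
    exact h2
  haveI : BorelSpace (MG Γ) := ⟨rfl⟩
  haveI : BorelSpace (MG Γ × MG Γ) := Prod.borelSpace
  refine MDP_abs (mkM Γ) hsM σ (DM Γ) (fun ρ => (hopen ρ).measurableSet) (fun ρ z z' h => ⟨z, z', rfl, rfl, h⟩) C u α hα hu hE E ?_
  exact h0

end Pool.Agent.LL
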